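import Mathlib

/-!
Piecewise continuous bijections of the circle, modulo finitely supported permutations.
-/

namespace Q78.PCB

open Topology

/-- The circle `ℝ / ℤ`. -/
abbrev S : Type := AddCircle (1 : ℝ)

/-- `f` is continuous at all but finitely many points. -/
def CofinContinuous (f : Equiv.Perm S) : Prop := {x | ¬ ContinuousAt f x}.Finite

theorem CofinContinuous.comp {f g : Equiv.Perm S} (hf : CofinContinuous f)
    (hg : CofinContinuous g) : CofinContinuous (f * g : Equiv.Perm S) := by
  have h1 : (g ⁻¹' {x | ¬ ContinuousAt f x}).Finite := hf.preimage g.injective.injOn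
  refine (hg.union h1).subset ?_
  intro x hx
  by_contra hcon
  simp only [Set.mem_union, Set.mem_preimage, not_or] at hcon
  have a1 : ContinuousAt g x := by
    by_contra h
    exact hcon.1 h
  have a2 : ContinuousAt f (g x) := by
    by_contra h
    exact hcon.2 h
  exact hx (a2.comp a1)

theorem cofinContinuous_id : CofinContinuous (1 : Equiv.Perm S) := by
  have : {x : S | ¬ ContinuousAt (1 : Equiv.Perm S) x} = ∅ := by
    ext x
    simp only [Set.mem_ofPred_eq, Set.mem_empty_iff_false, iff_false, not_not]
    exact continuousAt_id
  show Set.Finite _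
  rw [this]
  exact Set.finite_empty

/-- The group of all bijections of the circle that are continuous at all but finitely many
points. (The inverses of such bijections have the same property; it is put in the
definition.) -/
def PCSub : Subgroup (Equiv.Perm S) where
  carrier := {f | CofinContinuous f ∧ CofinContinuous f⁻¹}
  mul_mem' := fun {f g} hf hg => ⟨hf.1.comp hg.1, by rw [mul_inv_rev]; exact hg.2.comp hf.2⟩
  one_mem' := ⟨cofinContinuous_id, by rw [inv_one]; exact cofinContinuous_id⟩
  inv_mem' := fun {f} hf => ⟨hf.2, by rw [inv_inv]; exact hf.1⟩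

/-- The same, as a group. -/
def PC : Type := PCSub

instance : Group PC := inferInstanceAs (Group PCSub)

/-- The underlying permutation. -/
def perm (f : PC) : Equiv.Perm S := f.1

/-- Finite support. -/
def HasFiniteSupport (f : Equiv.Perm S) : Prop := {x | f x ≠ x}.Finite

theorem HasFiniteSupport.mul {f g : Equiv.Perm S} (hf : HasFiniteSupport f)
    (hg : HasFiniteSupport g) : HasFiniteSupport (f * g) := by
  refine (hf.union hg).subset ?_
  intro x hx
  by_contra hcon
  simp only [Set.mem_union, Set.mem_ofPred_eq, not_or, not_not] at hcon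
  apply hx
  show f (g x) = x
  rw [hcon.2, hcon.1]

theorem HasFiniteSupport.inv {f : Equiv.Perm S} (hf : HasFiniteSupport f) :
    HasFiniteSupport f⁻¹ := by
  refine hf.subset ?_
  intro x hx hcon
  apply hx
  show f⁻¹ x = x
  rw [Equiv.Perm.inv_eq_iff_eq]
  exact hcon.symm

theorem HasFiniteSupport.conj {f g : Equiv.Perm S} (hf : HasFiniteSupport f) :
    HasFiniteSupport (g * f * g⁻¹) := by
  refine (hf.image g).subset ?_
  intro x hx
  refine ⟨g⁻¹ x, ?_, by simp⟩
  intro hcon
  apply hx
  show g (f (g⁻¹ x)) = x
  rw [hcon]
  simp

/-- The normal subgroup of finitely supported permutations. -/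
def FinSupp : Subgroup PC where
  carrier := {f | HasFiniteSupport (perm f)}
  mul_mem' := fun {_ _} hf hg => hf.mul hg
  one_mem' := by
    show Set.Finite {x : S | (1 : Equiv.Perm S) x ≠ x}
    simp
  inv_mem' := fun {_} hf => hf.inv

instance : FinSupp.Normal where
  conj_mem _ hf _ := HasFiniteSupport.conj hf

/-- The group of piecewise continuous bijections modulo finitely supported permutations. -/
def PCBow : Type := PC ⧸ FinSupp

instance : Group PCBow := inferInstanceAs (Group (PC ⧸ FinSupp))

/-- The quotient map. -/
def proj : PC →* PCBow := QuotientGroup.mk' FinSupp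

/-- `f` is locally, off a finite set, of the form `y ↦ y + c` or `y ↦ -y + c`. -/
def IsPiecewiseIsometric (f : Equiv.Perm S) : Prop :=
  ∃ K : Set S, K.Finite ∧ ∀ x ∉ K, ∃ c : S,
    (∀ᶠ y in 𝓝 x, f y = y + c) ∨ (∀ᶠ y in 𝓝 x, f y = -y + c)

/-- The interval exchanges with flips: classes having a piecewise isometric representative. -/
def IETBow : Set PCBow := {g | ∃ f : PC, IsPiecewiseIsometric (perm f) ∧ proj f = g}

/-- `Γ` lifts isomorphically to a group of piecewise continuous bijections. -/
def Realizable (Γ : Subgroup PCBow) : Prop :=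
  ∃ Λ : Subgroup PC, Set.BijOn proj (Λ : Set PC) (Γ : Set PCBow)

end Q78.PCB
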