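import Mathlib
import Pool.Agent.Q78.PCB.Defs

/-! Geometry of the circle used for the counterexample. -/

namespace Q78.PCB

open Topology Set

/-- One half. -/
noncomputable def hh : S := ((1 / 2 : ℝ) : S)

/-- One quarter. -/
noncomputable def qq : S := ((1 / 4 : ℝ) : S)

theorem coe_int (n : ℤ) : (((n : ℤ) : ℝ) : S) = 0 := by
  have : ((n : ℤ) : ℝ) = n • (1 : ℝ) := by simp
  rw [this, AddCircle.coe_zsmul, AddCircle.coe_period, smul_zero]

theorem coe_eq_iff (s t : ℝ) : (s : S) = (t : S) ↔ ∃ n : ℤ, s = t + n := by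
  constructor
  · intro h
    have h' := QuotientAddGroup.eq.1 h
    obtain ⟨n, hn⟩ := AddSubgroup.mem_zmultiples_iff.1 h'
    refine ⟨-n, ?_⟩
    simp at hn
    push_cast
    linarith
  · rintro ⟨n, rfl⟩
    rw [AddCircle.coe_add, coe_int, add_zero]

theorem hh_ne_zero : hh ≠ 0 := by
  intro h
  have h' : ((1 / 2 : ℝ) : S) = ((0 : ℝ) : S) := by simpa [hh] using h
  obtain ⟨n, hn⟩ := (coe_eq_iff _ _).1 h'
  have : (1 : ℝ) = 2 * n := by linarith
  have h2 : (1 : ℤ) = 2 * n := by exact_mod_cast this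
  omega

theorem hh_add_hh : hh + hh = 0 := by
  unfold hh
  rw [← AddCircle.coe_add]
  have : (1 / 2 + 1 / 2 : ℝ) = ((1 : ℤ) : ℝ) := by norm_num
  rw [this, coe_int]

theorem qq_add_qq : qq + qq = hh := by
  unfold qq hh
  rw [← AddCircle.coe_add]
  norm_num

theorem neg_hh : -hh = hh := by
  rw [neg_eq_iff_add_eq_zero]
  exact hh_add_hh

theorem two_smul_eq (u v : S) (h : (2 : ℤ) • u = (2 : ℤ) • v) : u = v ∨ u = v + hh := by
  obtain ⟨s, rfl⟩ := QuotientAddGroup.mk_surjective u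
  obtain ⟨t, rfl⟩ := QuotientAddGroup.mk_surjective v
  have h' : (((2 : ℤ) • s : ℝ) : S) = (((2 : ℤ) • t : ℝ) : S) := h
  obtain ⟨n, hn⟩ := (coe_eq_iff _ _).1 h'
  have hn' : 2 * s = 2 * t + n := by simpa using hn
  rcases Int.even_or_odd n with ⟨k, hk⟩ | ⟨k, hk⟩
  · left
    refine (coe_eq_iff _ _).2 ⟨k, ?_⟩
    rw [hk] at hn'
    push_cast at hn'
    linarith
  · right
    have : ((t : ℝ) : S) + hh = ((t + 1 / 2 : ℝ) : S) := (AddCircle.coe_add 1 t (1 / 2)).symm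
    show (s : S) = (t : S) + hh
    rw [this]
    refine (coe_eq_iff _ _).2 ⟨k, ?_⟩
    rw [hk] at hn'
    push_cast at hn'
    linarith

theorem two_smul_hh : (2 : ℤ) • hh = 0 := by
  rw [two_smul]
  exact hh_add_hh

/-- The set `[0,1/4) ∪ [1/2,3/4)`. -/
def BB : Set S := {x | ∃ t ∈ Ico (0 : ℝ) (1 / 4), x = (t : S) ∨ x = ((t + 1 / 2 : ℝ) : S)}

theorem exists_res (x : S) : ∃ (r : ℝ) (n : ℤ), 0 ≤ r ∧ r < 1 / 2 ∧ x = ((r + n / 2 : ℝ) : S) := by
  obtain ⟨t, rfl⟩ := QuotientAddGroup.mk_surjective x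
  refine ⟨t - ⌊2 * t⌋ / 2, ⌊2 * t⌋, ?_, ?_, ?_⟩
  · have := Int.floor_le (2 * t)
    linarith
  · have := Int.lt_floor_add_one (2 * t)
    linarith
  · congr 1
    ring

theorem mem_BB_iff (r : ℝ) (n : ℤ) (h0 : 0 ≤ r) (h1 : r < 1 / 2) :
    ((r + n / 2 : ℝ) : S) ∈ BB ↔ r < 1 / 4 := by
  constructor
  · rintro ⟨t, ⟨ht0, ht1⟩, ht | ht⟩
    · obtain ⟨k, hk⟩ := (coe_eq_iff _ _).1 ht
      by_contra hcon
      push Not at hcon
      have h2 : r - t = (2 * k - n) / 2 := by linarith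
      have h3 : (0 : ℝ) < (2 * k - n) := by linarith
      have h4 : (2 * k - n : ℝ) < 1 := by linarith
      have h5 : (0 : ℤ) < 2 * k - n := by exact_mod_cast h3
      have h6 : 2 * k - n < (1 : ℤ) := by exact_mod_cast h4
      omega
    · obtain ⟨k, hk⟩ := (coe_eq_iff _ _).1 ht
      by_contra hcon
      push Not at hcon
      have h2 : r - t = (2 * k + 1 - n) / 2 := by linarith
      have h3 : (0 : ℝ) < (2 * k + 1 - n) := by linarith
      have h4 : (2 * k + 1 - n : ℝ) < 1 := by linarith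
      have h5 : (0 : ℤ) < 2 * k + 1 - n := by exact_mod_cast h3
      have h6 : 2 * k + 1 - n < (1 : ℤ) := by exact_mod_cast h4
      omega
  · intro h
    refine ⟨r, ⟨h0, h⟩, ?_⟩
    rcases Int.even_or_odd n with ⟨k, hk⟩ | ⟨k, hk⟩
    · left
      refine (coe_eq_iff _ _).2 ⟨k, ?_⟩
      rw [hk]
      push_cast
      ring
    · right
      refine (coe_eq_iff _ _).2 ⟨k, ?_⟩
      rw [hk]
      push_cast
      ring

theorem BB_add_hh (x : S) : x + hh ∈ BB ↔ x ∈ BB := by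
  obtain ⟨r, n, h0, h1, rfl⟩ := exists_res x
  have e : ((r + n / 2 : ℝ) : S) + hh = ((r + ((n + 1 : ℤ) : ℝ) / 2 : ℝ) : S) := by
    unfold hh
    rw [← AddCircle.coe_add]
    congr 1
    push_cast
    ring
  rw [e, mem_BB_iff r _ h0 h1, mem_BB_iff r _ h0 h1]

theorem BB_add_qq (x : S) : x + qq ∈ BB ↔ x ∉ BB := by
  obtain ⟨r, n, h0, h1, rfl⟩ := exists_res x
  rcases lt_or_ge r (1 / 4) with h | h
  · have e : ((r + n / 2 : ℝ) : S) + qq = (((r + 1 / 4) + n / 2 : ℝ) : S) := by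
      unfold qq
      rw [← AddCircle.coe_add]
      congr 1
      ring
    rw [e, mem_BB_iff _ _ (by linarith) (by linarith), mem_BB_iff _ _ h0 h1]
    constructor
    · intro h'; linarith
    · intro h'; exact absurd h h'
  · have e : ((r + n / 2 : ℝ) : S) + qq = (((r - 1 / 4) + ((n + 1 : ℤ) : ℝ) / 2 : ℝ) : S) := by
      unfold qq
      rw [← AddCircle.coe_add]
      congr 1
      push_cast
      ring
    rw [e, mem_BB_iff _ _ (by linarith) (by linarith), mem_BB_iff _ _ h0 h1]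
    constructor
    · intro _; linarith
    · intro _; linarith

/-- The four exceptional points. -/
def Exc : Set S := {x | (4 : ℤ) • x = 0}

theorem finite_Exc : Exc.Finite := by
  refine Set.Finite.subset (s := (fun n : ℤ => ((n / 4 : ℝ) : S)) '' (Set.Icc 0 3)) 
    ((Set.finite_Icc _ _).image _) ?_
  intro x hx
  obtain ⟨t, rfl⟩ := QuotientAddGroup.mk_surjective x
  have h' : (((4 : ℤ) • t : ℝ) : S) = ((0 : ℝ) : S) := hx
  obtain ⟨n, hn⟩ := (coe_eq_iff _ _).1 h'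
  have hn' : 4 * t = n := by simpa using hn
  refine ⟨n % 4, ⟨Int.emod_nonneg _ (by norm_num), ?_⟩, ?_⟩
  · have := Int.emod_lt_of_pos n (show (0 : ℤ) < 4 by norm_num)
    omega
  · refine (coe_eq_iff _ _).2 ⟨-(n / 4), ?_⟩
    have h1 : (n : ℝ) = 4 * ((n / 4 : ℤ) : ℝ) + ((n % 4 : ℤ) : ℝ) := by
      have := Int.mul_ediv_add_emod n 4
      exact_mod_cast this.symm
    push_cast
    linarith

theorem res_not_exc {r : ℝ} {n : ℤ} (hx : ((r + n / 2 : ℝ) : S) ∉ Exc) : r ≠ 0 ∧ r ≠ 1 / 4 := by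
  constructor
  · rintro rfl
    apply hx
    show (((4 : ℤ) • (0 + n / 2 : ℝ) : ℝ) : S) = ((0 : ℝ) : S)
    refine (coe_eq_iff _ _).2 ⟨2 * n, ?_⟩
    simp
    ring
  · rintro rfl
    apply hx
    show (((4 : ℤ) • (1 / 4 + n / 2 : ℝ) : ℝ) : S) = ((0 : ℝ) : S)
    refine (coe_eq_iff _ _).2 ⟨2 * n + 1, ?_⟩
    simp
    ring

theorem BB_neg {x : S} (hx : x ∉ Exc) : -x ∈ BB ↔ x ∉ BB := by
  obtain ⟨r, n, h0, h1, rfl⟩ := exists_res x
  obtain ⟨hr0, hr1⟩ := res_not_exc hx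
  have e : -((r + n / 2 : ℝ) : S) = (((1 / 2 - r) + ((-n - 1 : ℤ) : ℝ) / 2 : ℝ) : S) := by
    rw [← AddCircle.coe_neg]
    congr 1
    push_cast
    ring
  have hpos : 0 < r := lt_of_le_of_ne h0 (Ne.symm hr0)
  rw [e, mem_BB_iff _ _ (by linarith) (by linarith), mem_BB_iff _ _ h0 h1]
  constructor
  · intro h; linarith
  · intro h
    push Not at h
    have : 1 / 4 < r := lt_of_le_of_ne h (Ne.symm hr1)
    linarith

theorem coe_nhds {t : ℝ} {V : Set ℝ} (hV : V ∈ 𝓝 t) : (fun s : ℝ => (s : S)) '' V ∈ 𝓝 (t : S) :=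
  (QuotientAddGroup.isOpenMap_coe).image_mem_nhds hV

theorem BB_eventually {x : S} (hx : x ∉ Exc) : ∀ᶠ y in 𝓝 x, (y ∈ BB ↔ x ∈ BB) := by
  obtain ⟨r, n, h0, h1, rfl⟩ := exists_res x
  obtain ⟨hr0, hr1⟩ := res_not_exc hx
  have hpos : 0 < r := lt_of_le_of_ne h0 (Ne.symm hr0)
  rcases lt_or_gt_of_ne hr1 with h | h
  · have hV : Ioo ((n : ℝ) / 2) (1 / 4 + n / 2) ∈ 𝓝 (r + (n : ℝ) / 2) :=
      Ioo_mem_nhds (by linarith) (by linarith)
    filter_upwards [coe_nhds hV]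
    rintro _ ⟨s, ⟨hs1, hs2⟩, rfl⟩
    have e : (s : S) = (((s - n / 2) + n / 2 : ℝ) : S) := by congr 1; ring
    show (s : S) ∈ BB ↔ _
    rw [e, mem_BB_iff _ _ (by linarith) (by linarith), mem_BB_iff _ _ h0 h1]
    constructor
    · intro _; exact h
    · intro _; linarith
  · have hV : Ioo (1 / 4 + (n : ℝ) / 2) (1 / 2 + n / 2) ∈ 𝓝 (r + (n : ℝ) / 2) :=
      Ioo_mem_nhds (by linarith) (by linarith)
    filter_upwards [coe_nhds hV]
    rintro _ ⟨s, ⟨hs1, hs2⟩, rfl⟩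
    have e : (s : S) = (((s - n / 2) + n / 2 : ℝ) : S) := by congr 1; ring
    show (s : S) ∈ BB ↔ _
    rw [e, mem_BB_iff _ _ (by linarith) (by linarith), mem_BB_iff _ _ h0 h1]
    constructor
    · intro h'; linarith
    · intro h'; linarith

theorem BB_sep {d : S} (hd0 : d ≠ 0) (hdh : d ≠ hh) :
    ∃ U : Set S, IsOpen U ∧ U.Nonempty ∧ ∀ z ∈ U, z ∈ BB ∧ z + d ∉ BB := by
  obtain ⟨δ, n, h0, h1, rfl⟩ := exists_res d
  have hδ : 0 < δ := by
    refine lt_of_le_of_ne h0 ?_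
    rintro rfl
    rcases Int.even_or_odd n with ⟨k, hk⟩ | ⟨k, hk⟩
    · apply hd0
      have : ((0 : ℝ) : S) = 0 := rfl
      rw [← this]
      refine (coe_eq_iff _ _).2 ⟨k, ?_⟩
      rw [hk]; push_cast; ring
    · apply hdh
      refine (coe_eq_iff _ _).2 ⟨k, ?_⟩
      rw [hk]; push_cast; ring
  set lo := max 0 (1 / 4 - δ) with hlo
  set hi := min (1 / 4) (1 / 2 - δ) with hhi
  have hlt : lo < hi := by
    rw [hlo, hhi]
    refine max_lt (lt_min (by norm_num) (by linarith)) (lt_min (by linarith) (by linarith))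
  refine ⟨(fun s : ℝ => (s : S)) '' Ioo lo hi,
    QuotientAddGroup.isOpenMap_coe _ isOpen_Ioo, ?_, ?_⟩
  · exact ((nonempty_Ioo).2 hlt).image _
  · rintro _ ⟨s, ⟨hs1, hs2⟩, rfl⟩
    have a1 : 0 < s := lt_of_le_of_lt (le_max_left _ _) hs1
    have a2 : 1 / 4 - δ < s := lt_of_le_of_lt (le_max_right _ _) hs1
    have a3 : s < 1 / 4 := lt_of_lt_of_le hs2 (min_le_left _ _)
    have a4 : s < 1 / 2 - δ := lt_of_lt_of_le hs2 (min_le_right _ _)
    constructor
    · have e : (s : S) = ((s + ((0 : ℤ) : ℝ) / 2 : ℝ) : S) := by congr 1; push_cast; ring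
      show (s : S) ∈ BB
      rw [e, mem_BB_iff _ _ (by linarith) (by linarith)]
      exact a3
    · have e : (s : S) + ((δ + n / 2 : ℝ) : S) = (((s + δ) + n / 2 : ℝ) : S) := by
        rw [← AddCircle.coe_add]
        congr 1
        ring
      show (s : S) + ((δ + n / 2 : ℝ) : S) ∉ BB
      rw [e, mem_BB_iff _ _ (by linarith) (by linarith)]
      linarith

open Classical in
/-- The exchange `x ↦ x + 1/2` on `[0,1/4) ∪ [1/2,3/4)`. -/
noncomputable def F0 (x : S) : S := if x ∈ BB then x + hh else x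

theorem F0_invol (x : S) : F0 (F0 x) = x := by
  unfold F0
  by_cases h : x ∈ BB
  · rw [if_pos h, if_pos ((BB_add_hh x).2 h), add_assoc, hh_add_hh, add_zero]
  · rw [if_neg h, if_neg h]

/-- The exchange as a permutation. -/
noncomputable def Fp : Equiv.Perm S := ⟨F0, F0, F0_invol, F0_invol⟩

theorem Fp_inv : Fp⁻¹ = Fp := rfl

theorem F0_cases (x : S) : (x ∈ BB ∧ F0 x = x + hh) ∨ (x ∉ BB ∧ F0 x = x) := by
  unfold F0
  by_cases h : x ∈ BB
  · left; exact ⟨h, if_pos h⟩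
  · right; exact ⟨h, if_neg h⟩

instance : Nontrivial S := ⟨⟨hh, 0, hh_ne_zero⟩⟩

theorem perfect (x : S) : (𝓝[≠] x).NeBot := by
  infer_instance

end Q78.PCB
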