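import Mathlib

/-! Rigidity of near actions of `ℤ²` by translations. -/

namespace Q78.PCB

open Set

variable {G : Type*} [AddCommGroup G]

theorem inv_self' {X : Type*} (f : Equiv.Perm X) (x : X) : f⁻¹ (f x) = x := f.symm_apply_apply x

theorem self_inv' {X : Type*} (f : Equiv.Perm X) (x : X) : f (f⁻¹ x) = x := f.apply_symm_apply x

/-- A function on `ℤ²` which is invariant under the unit moves off a finite set is constant
near infinity. -/
theorem eventually_const {X : Type*} (h : ℤ → ℤ → X)
    (h1 : {p : ℤ × ℤ | h (p.1 + 1) p.2 ≠ h p.1 p.2}.Finite)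
    (h2 : {p : ℤ × ℤ | h p.1 (p.2 + 1) ≠ h p.1 p.2}.Finite) :
    ∃ (c : X) (N : ℤ), 0 ≤ N ∧ ∀ m n : ℤ, (N < |m| ∨ N < |n|) → h m n = c := by
  obtain ⟨N, hN⟩ : ∃ N : ℤ, ∀ p ∈ {p : ℤ × ℤ | h (p.1 + 1) p.2 ≠ h p.1 p.2} ∪
      {p : ℤ × ℤ | h p.1 (p.2 + 1) ≠ h p.1 p.2}, |p.1| + |p.2| ≤ N := by
    obtain ⟨N, hN⟩ := ((h1.union h2).image fun p : ℤ × ℤ => |p.1| + |p.2|).bddAbove
    exact ⟨N, fun p hp => hN ⟨p, hp, rfl⟩⟩
  set M := max N 0 with hM
  have hv : ∀ m : ℤ, M < |m| → ∀ n, h m n = h m 0 := by
    intro m hm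
    have step : ∀ n, h m (n + 1) = h m n := by
      intro n
      by_contra hcon
      have := hN (m, n) (Or.inr hcon)
      have h3 := abs_nonneg n
      have h4 : N ≤ M := le_max_left _ _
      simp only at this
      linarith
    intro n
    induction n using Int.induction_on with
    | zero => rfl
    | succ n ih => rw [step, ih]
    | pred n ih =>
      rw [← ih, ← step (-(n : ℤ) - 1)]
      congr 1
      ring
  have hh : ∀ n : ℤ, M < |n| → ∀ m, h m n = h 0 n := by
    intro n hn
    have step : ∀ m, h (m + 1) n = h m n := by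
      intro m
      by_contra hcon
      have := hN (m, n) (Or.inl hcon)
      have h3 := abs_nonneg m
      have h4 : N ≤ M := le_max_left _ _
      simp only at this
      linarith
    intro m
    induction m using Int.induction_on with
    | zero => rfl
    | succ m ih => rw [step, ih]
    | pred m ih =>
      rw [← ih, ← step (-(m : ℤ) - 1)]
      congr 1
      ring
  have hM0 : 0 ≤ M := le_max_right _ _
  have hbig : M < |M + 1| := by rw [abs_of_nonneg (by linarith)]; linarith
  refine ⟨h (M + 1) 0, M, hM0, ?_⟩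
  -- everything far away agrees with the constant
  have hrow : ∀ n, M < |n| → h 0 n = h (M + 1) 0 := by
    intro n hn
    rw [← hh n hn (M + 1), hv (M + 1) hbig n]
  have hcol : ∀ m, M < |m| → h m 0 = h (M + 1) 0 := by
    intro m hm
    rw [← hv m hm (M + 1), hh (M + 1) hbig m, hrow (M + 1) hbig]
  intro m n hmn
  rcases hmn with hm | hn
  · rw [hv m hm n, hcol m hm]
  · rw [hh n hn m, hrow n hn]

/-- Rigidity: commuting permutations near to independent translations are simultaneously
conjugate to them by a finitely supported permutation. -/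
theorem rigid (α β : G) (hind : ∀ m n : ℤ, m • α + n • β = 0 → m = 0 ∧ n = 0)
    (a b : Equiv.Perm G) (hab : a * b = b * a) (ha : {x | a x ≠ x + α}.Finite)
    (hb : {x | b x ≠ x + β}.Finite) :
    ∃ Θ : Equiv.Perm G, {x | Θ x ≠ x}.Finite ∧ ∀ x, Θ (x + α) = a (Θ x) := by
  classical
  have hcomm : Commute a b := hab
  -- the comparison function
  let h : G → ℤ → ℤ → G := fun x m n => (a ^ m * b ^ n)⁻¹ (x + m • α + n • β)
  have hinj : ∀ x : G, Function.Injective fun p : ℤ × ℤ => x + p.1 • α + p.2 • β := by
    intro x p p' hp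
    simp only at hp
    have : (p.1 - p'.1) • α + (p.2 - p'.2) • β = 0 := by
      have h1 : x + p.1 • α + p.2 • β - (x + p'.1 • α + p'.2 • β) = 0 := by rw [hp, sub_self]
      rw [← h1, sub_smul, sub_smul]
      abel
    have := hind _ _ this
    exact Prod.ext (by linarith [this.1]) (by linarith [this.2])
  have hstep1 : ∀ x m n, a (x + m • α + n • β) = x + m • α + n • β + α →
      h x (m + 1) n = h x m n := by
    intro x m n hx
    show (a ^ (m + 1) * b ^ n)⁻¹ (x + (m + 1) • α + n • β) = (a ^ m * b ^ n)⁻¹ _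
    have e1 : x + (m + 1) • α + n • β = a (x + m • α + n • β) := by
      rw [hx, add_smul, one_smul]
      abel
    have e2 : a ^ (m + 1) * b ^ n = a * (a ^ m * b ^ n) := by
      rw [← mul_assoc, ← zpow_one_add, add_comm]
    rw [e1, e2, mul_inv_rev, Equiv.Perm.mul_apply, inv_self']
  have hstep2 : ∀ x m n, b (x + m • α + n • β) = x + m • α + n • β + β →
      h x m (n + 1) = h x m n := by
    intro x m n hx
    show (a ^ m * b ^ (n + 1))⁻¹ (x + m • α + (n + 1) • β) = (a ^ m * b ^ n)⁻¹ _
    have e1 : x + m • α + (n + 1) • β = b (x + m • α + n • β) := by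
      rw [hx, add_smul, one_smul]
      abel
    have e2 : a ^ m * b ^ (n + 1) = b * (a ^ m * b ^ n) := by
      have h3 : b * a ^ m = a ^ m * b := ((hcomm.symm).zpow_right m).eq
      rw [← mul_assoc, h3, mul_assoc, ← zpow_one_add, add_comm]
    rw [e1, e2, mul_inv_rev, Equiv.Perm.mul_apply, inv_self']
  have hconst : ∀ x, ∃ (c : G) (N : ℤ), 0 ≤ N ∧ ∀ m n : ℤ, (N < |m| ∨ N < |n|) → h x m n = c := by
    intro x
    apply eventually_const
    · refine ((ha.preimage (hinj x).injOn)).subset ?_
      intro p hp
      by_contra hcon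
      apply hp
      apply hstep1
      by_contra h'
      exact hcon h'
    · refine ((hb.preimage (hinj x).injOn)).subset ?_
      intro p hp
      by_contra hcon
      apply hp
      apply hstep2
      by_contra h'
      exact hcon h'
  choose θ N hN0 hN using hconst
  -- equivariance
  have heq1 : ∀ x, θ (x + α) = a (θ x) := by
    intro x
    obtain ⟨m, hm⟩ : ∃ m, m = max (N x) (N (x + α)) + 1 := ⟨_, rfl⟩
    have hm1 : N (x + α) < |m| := by
      rw [abs_of_nonneg (by have := hN0 x; omega)]; omega
    have hm2 : N x < |m + 1| := by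
      rw [abs_of_nonneg (by have := hN0 x; omega)]; omega
    rw [← hN (x + α) m 0 (Or.inl hm1), ← hN x (m + 1) 0 (Or.inl hm2)]
    show (a ^ m * b ^ (0 : ℤ))⁻¹ (x + α + m • α + (0 : ℤ) • β) =
      a ((a ^ (m + 1) * b ^ (0 : ℤ))⁻¹ (x + (m + 1) • α + (0 : ℤ) • β))
    have e1 : x + α + m • α + (0 : ℤ) • β = x + (m + 1) • α + (0 : ℤ) • β := by
      rw [add_smul, one_smul]; abel
    rw [e1, zpow_zero, mul_one, mul_one]
    have e2 : a ^ (m + 1) = a ^ m * a := by rw [zpow_add_one]
    rw [e2, mul_inv_rev, Equiv.Perm.mul_apply, self_inv']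
  have heq2 : ∀ x, θ (x + β) = b (θ x) := by
    intro x
    obtain ⟨m, hm⟩ : ∃ m, m = max (N x) (N (x + β)) + 1 := ⟨_, rfl⟩
    have hm1 : N (x + β) < |m| := by
      rw [abs_of_nonneg (by have := hN0 x; omega)]; omega
    have hm2 : N x < |m + 1| := by
      rw [abs_of_nonneg (by have := hN0 x; omega)]; omega
    rw [← hN (x + β) 0 m (Or.inr hm1), ← hN x 0 (m + 1) (Or.inr hm2)]
    show (a ^ (0 : ℤ) * b ^ m)⁻¹ (x + β + (0 : ℤ) • α + m • β) =
      b ((a ^ (0 : ℤ) * b ^ (m + 1))⁻¹ (x + (0 : ℤ) • α + (m + 1) • β))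
    have e1 : x + β + (0 : ℤ) • α + m • β = x + (0 : ℤ) • α + (m + 1) • β := by
      rw [add_smul m 1 β, one_smul]; abel
    rw [e1, zpow_zero, one_mul, one_mul]
    have e2 : b ^ (m + 1) = b ^ m * b := by rw [zpow_add_one]
    rw [e2, mul_inv_rev, Equiv.Perm.mul_apply, self_inv']
  have heq : ∀ (m n : ℤ) x, θ (x + m • α + n • β) = (a ^ m * b ^ n) (θ x) := by
    have hA : ∀ (m : ℤ) x, θ (x + m • α) = (a ^ m) (θ x) := by
      intro m
      induction m using Int.induction_on with
      | zero => intro x; simp
      | succ m ih =>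
        intro x
        rw [add_smul, one_smul, ← add_assoc, heq1, ih, zpow_add_one, ← Equiv.Perm.mul_apply]
        congr 1
        exact ((Commute.refl a).zpow_right _).eq
      | pred m ih =>
        intro x
        have e := heq1 (x + (-(m : ℤ) - 1) • α)
        have e2 : x + (-(m : ℤ) - 1) • α + α = x + (-(m : ℤ)) • α := by
          rw [sub_smul, one_smul]; abel
        rw [e2, ih] at e
        have e3 : a ^ (-(m : ℤ)) = a * a ^ (-(m : ℤ) - 1) := by
          rw [← zpow_one_add]; congr 1; ring
        rw [e3, Equiv.Perm.mul_apply] at e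
        exact (a.injective e).symm
    have hB : ∀ (n : ℤ) x, θ (x + n • β) = (b ^ n) (θ x) := by
      intro m
      induction m using Int.induction_on with
      | zero => intro x; simp
      | succ m ih =>
        intro x
        rw [add_smul, one_smul, ← add_assoc, heq2, ih, zpow_add_one, ← Equiv.Perm.mul_apply]
        congr 1
        exact ((Commute.refl b).zpow_right _).eq
      | pred m ih =>
        intro x
        have e := heq2 (x + (-(m : ℤ) - 1) • β)
        have e2 : x + (-(m : ℤ) - 1) • β + β = x + (-(m : ℤ)) • β := by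
          rw [sub_smul, one_smul]; abel
        rw [e2, ih] at e
        have e3 : b ^ (-(m : ℤ)) = b * b ^ (-(m : ℤ) - 1) := by
          rw [← zpow_one_add]; congr 1; ring
        rw [e3, Equiv.Perm.mul_apply] at e
        exact (b.injective e).symm
    intro m n x
    rw [hB, hA, ← Equiv.Perm.mul_apply]
    congr 1
    exact ((hcomm.zpow_left m).zpow_right n).symm.eq
  -- injectivity
  have hθinj : Function.Injective θ := by
    intro x y hxy
    set m := max (N x) (N y) + 1 with hm
    have hm1 : N x < |m| := by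
      rw [abs_of_nonneg (by have := hN0 x; omega)]; omega
    have hm2 : N y < |m| := by
      rw [abs_of_nonneg (by have := hN0 x; omega)]; omega
    have e : h x m 0 = h y m 0 := by
      rw [hN x m 0 (Or.inl hm1), hN y m 0 (Or.inl hm2), hxy]
    have e2 := (a ^ m * b ^ (0 : ℤ))⁻¹.injective e
    simpa using e2
  -- finite support
  have hfin : {x | θ x ≠ x}.Finite := by
    set K := {x | a x ≠ x + α} ∪ {x | b x ≠ x + β} with hK
    have hKfin : K.Finite := ha.union hb
    have hcover : {x | θ x ≠ x} ⊆ ⋃ k ∈ K, (fun p : ℤ × ℤ => k + p.1 • α + p.2 • β) ''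
        (Set.Icc (-(N k)) (N k) ×ˢ Set.Icc (-(N k)) (N k)) := by
      intro x hx
      by_cases hor : ∃ m n : ℤ, x + m • α + n • β ∈ K
      · obtain ⟨m, n, hk⟩ := hor
        refine mem_iUnion₂.2 ⟨_, hk, (-m, -n), ?_, ?_⟩
        · set k := x + m • α + n • β with hkdef
          have hxk : x = k + (-m) • α + (-n) • β := by
            rw [hkdef, neg_smul, neg_smul]; abel
          by_contra hcon
          apply hx
          have hfar : N k < |(-m : ℤ)| ∨ N k < |(-n : ℤ)| := by
            by_contra h'
            push Not at h'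
            apply hcon
            exact ⟨abs_le.1 h'.1, abs_le.1 h'.2⟩
          have e1 := hN k (-m) (-n) hfar
          have e2 : (a ^ (-m) * b ^ (-n))⁻¹ (k + (-m) • α + (-n) • β) = θ k := e1
          rw [← hxk, Equiv.Perm.inv_eq_iff_eq] at e2
          rw [hxk, heq, ← e2, ← hxk]
        · simp only [neg_smul]
          abel
      · exfalso
        push Not at hor
        apply hx
        have hA : ∀ m n : ℤ, a (x + m • α + n • β) = x + m • α + n • β + α := by
          intro m n
          by_contra h'
          exact hor m n (Or.inl h')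
        have hB : ∀ m n : ℤ, b (x + m • α + n • β) = x + m • α + n • β + β := by
          intro m n
          by_contra h'
          exact hor m n (Or.inr h')
        have h0 : ∀ m : ℕ, h x m 0 = x := by
          intro m
          induction m with
          | zero =>
            show (a ^ (0 : ℤ) * b ^ (0 : ℤ))⁻¹ (x + (0 : ℤ) • α + (0 : ℤ) • β) = x
            simp only [zpow_zero, mul_one, inv_one, zero_smul, add_zero]
            rfl
          | succ m ih =>
            have := hstep1 x m 0 (hA m 0)
            push_cast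
            rw [this, ih]
        have hNx : N x < |(((N x).toNat + 1 : ℕ) : ℤ)| := by
          have := hN0 x
          rw [abs_of_nonneg (by positivity)]
          push_cast
          omega
        rw [← hN x (((N x).toNat + 1 : ℕ) : ℤ) 0 (Or.inl hNx), h0]
    refine Set.Finite.subset ?_ hcover
    refine hKfin.biUnion fun k _ => ?_
    exact ((Set.finite_Icc _ _).prod (Set.finite_Icc _ _)).image _
  -- bijectivity
  have hθsurj : Function.Surjective θ := by
    have hmaps : Set.MapsTo θ {x | θ x ≠ x} {x | θ x ≠ x} := by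
      intro x hx hcon
      exact hx (hθinj hcon)
    have hsurj := (Set.Finite.injOn_iff_bijOn_of_mapsTo hfin hmaps).1 hθinj.injOn
    intro y
    by_cases hy : θ y = y
    · exact ⟨y, hy⟩
    · obtain ⟨x, -, hx⟩ := hsurj.surjOn hy
      exact ⟨x, hx⟩
  exact ⟨Equiv.ofBijective θ ⟨hθinj, hθsurj⟩, hfin, heq1⟩

end Q78.PCB
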