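import Mathlib
import Pool.Agent.Q78.PCB.Circle
import Pool.Agent.Q78.PCB.Rigid

/-! The contradiction for a lift. -/

namespace Q78.PCB

open Topology Set

/-- Two maps intertwining in the same way and equal off a finite set are equal. -/
theorem eq_of_near {α : S} (hα : ∀ n : ℤ, n • α = 0 → n = 0) (f f0 u : S → S)
    (hu : Function.Injective u) (h1 : ∀ x, f (x + α) = u (f x)) (h2 : ∀ x, f0 (x + α) = u (f0 x))
    (hfin : {x | f x ≠ f0 x}.Finite) (x : S) : f x = f0 x := by
  have hit : ∀ (g : S → S), (∀ x, g (x + α) = u (g x)) → ∀ n : ℕ, g (x + n • α) = u^[n] (g x) := by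
    intro g hg n
    induction n with
    | zero => simp
    | succ n ih =>
      rw [succ_nsmul, ← add_assoc, hg, ih, Function.iterate_succ_apply']
  have hinj : Function.Injective fun n : ℕ => x + n • α := by
    intro n m hnm
    have h3 : n • α = m • α := add_left_cancel hnm
    have h4 : ((n : ℤ) - m) • α = 0 := by
      rw [sub_smul, natCast_zsmul, natCast_zsmul, h3, sub_self]
    have := hα _ h4
    omega
  obtain ⟨n, hn⟩ : ∃ n : ℕ, x + n • α ∉ {x | f x ≠ f0 x} := by
    by_contra hcon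
    push Not at hcon
    have : (Set.range fun n : ℕ => x + n • α).Finite := hfin.subset (by
      rintro _ ⟨n, rfl⟩
      exact hcon n)
    exact (Set.infinite_range_of_injective hinj) this
  have heq : f (x + n • α) = f0 (x + n • α) := by
    by_contra h
    exact hn h
  rw [hit f h1, hit f0 h2] at heq
  exact hu.iterate n heq

/-- The contradiction when the first rotation is exact. -/
theorem no_lift_exact {α : S} (hα : ∀ n : ℤ, n • α = 0 → n = 0)
    (hdense : DenseRange fun n : ℤ => n • α)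
    (a q ρ F : Equiv.Perm S) (ha : ∀ x, a x = x + α)
    (R2 : q * a = a * q) (R3 : ρ * a = a⁻¹ * ρ) (R4 : F * (q * q) = (q * q) * F)
    (R5 : ∀ n : ℤ, F * (a ^ n * F * (a ^ n)⁻¹) = (a ^ n * F * (a ^ n)⁻¹) * F)
    (R6 : F * (q * F * q⁻¹) = q * q) (R7 : ρ * F * ρ⁻¹ = q * F * q⁻¹)
    (hq : {x | q x ≠ x + qq}.Finite) (hρ : {x | ρ x ≠ -x}.Finite)
    (hF : {x | F x ≠ F0 x}.Finite) : False := by
  have hainv : ∀ x, a⁻¹ x = x - α := by
    intro x
    rw [Equiv.Perm.inv_eq_iff_eq, ha, sub_add_cancel]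
  have hq' : ∀ x, q x = x + qq := by
    intro x
    refine eq_of_near hα q (fun x => x + qq) (fun y => y + α) (add_left_injective α) ?_ ?_ hq x
    · intro x
      have := congrArg (fun g : Equiv.Perm S => g x) R2
      simp only [Equiv.Perm.mul_apply, ha] at this
      exact this
    · intro x
      show x + α + qq = x + qq + α
      abel
  have hρ' : ∀ x, ρ x = -x := by
    intro x
    refine eq_of_near hα ρ (fun x => -x) (fun y => y - α) (sub_left_injective) ?_ ?_ hρ x
    · intro x
      have := congrArg (fun g : Equiv.Perm S => g x) R3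
      simp only [Equiv.Perm.mul_apply, ha, hainv] at this
      exact this
    · intro x
      show -(x + α) = -x - α
      abel
  have hqq : ∀ x, (q * q) x = x + hh := by
    intro x
    rw [Equiv.Perm.mul_apply, hq', hq', add_assoc, qq_add_qq]
  have hFh : ∀ x, F (x + hh) = F x + hh := by
    intro x
    have : (F * (q * q)) x = ((q * q) * F) x := by rw [R4]
    rw [Equiv.Perm.mul_apply, hqq, Equiv.Perm.mul_apply, hqq] at this
    exact this
  have han : ∀ (n : ℤ) x, (a ^ n) x = x + n • α := by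
    intro n
    induction n using Int.induction_on with
    | zero => intro x; simp
    | succ n ih =>
      intro x
      rw [zpow_add_one, Equiv.Perm.mul_apply, ha, ih, add_smul, one_smul]
      abel
    | pred n ih =>
      intro x
      rw [zpow_sub_one, Equiv.Perm.mul_apply, hainv, ih, sub_smul, one_smul]
      abel
  have hcomm : ∀ (n : ℤ) x, F (F (x - n • α) + n • α) = F (F x - n • α) + n • α := by
    intro n x
    have := congrArg (fun g : Equiv.Perm S => g x) (R5 n)
    simp only [Equiv.Perm.mul_apply] at this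
    rw [← zpow_neg, han, han, han, han, neg_smul, ← sub_eq_add_neg, ← sub_eq_add_neg] at this
    exact this
  -- the value at zero
  have hfib : F 0 = 0 ∨ F 0 = hh := by
    by_contra hcon
    push Not at hcon
    obtain ⟨U, hUo, hUn, hU⟩ := BB_sep hcon.1 hcon.2
    set Bad := {x | F x ≠ F0 x} with hBad
    have hfin2 : (Bad ∪ (fun z => z + F 0) ⁻¹' Bad).Finite :=
      hF.union (hF.preimage (add_left_injective (F 0)).injOn)
    have hd : Dense ((Set.range fun n : ℤ => n • α) \ (Bad ∪ (fun z => z + F 0) ⁻¹' Bad)) :=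
      Dense.sdiff_finite hdense hfin2
    obtain ⟨z, hzU, ⟨⟨n, hn⟩, hz2⟩⟩ := hd.inter_open_nonempty U hUo hUn
    simp only [Set.mem_union, Set.mem_preimage, not_or] at hz2
    have e1 : F z = F0 z := by
      by_contra h
      exact hz2.1 h
    have e2 : F (z + F 0) = F0 (z + F 0) := by
      by_contra h
      exact hz2.2 h
    obtain ⟨hz3, hz4⟩ := hU z hzU
    have hn' : n • α = z := hn
    have key := hcomm (-n) 0
    have s1 : (0 : S) - (-n) • α = z := by rw [neg_smul, hn']; abel
    have s2 : F 0 - (-n) • α = z + F 0 := by rw [neg_smul, hn']; abel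
    rw [s1, s2, e1, e2] at key
    have f1 : F0 z = z + hh := by
      rcases F0_cases z with ⟨_, h⟩ | ⟨h, _⟩
      · exact h
      · exact absurd hz3 h
    have f2 : F0 (z + F 0) = z + F 0 := by
      rcases F0_cases (z + F 0) with ⟨h, _⟩ | ⟨_, h⟩
      · exact absurd h hz4
      · exact h
    rw [f1, f2, neg_smul, hn'] at key
    have s3 : z + hh + -z = 0 + hh := by abel
    have s4 : z + F 0 + -z = F 0 := by abel
    rw [s3, s4, hFh] at key
    have : hh = 0 := by
      have h5 : F 0 + hh = F 0 + 0 := by rw [key, add_zero]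
      exact add_left_cancel h5
    exact hh_ne_zero this
  have hinv_q : q⁻¹ 0 = -qq := by
    rw [Equiv.Perm.inv_eq_iff_eq, hq', neg_add_cancel]
  have hinv_ρ : ρ⁻¹ 0 = 0 := by
    rw [Equiv.Perm.inv_eq_iff_eq, hρ', neg_zero]
  have g7 := congrArg (fun g : Equiv.Perm S => g 0) R7
  simp only [Equiv.Perm.mul_apply] at g7
  rw [hinv_q, hinv_ρ, hρ', hq'] at g7
  have g6 := congrArg (fun g : Equiv.Perm S => g 0) R6
  simp only [Equiv.Perm.mul_apply] at g6
  rw [hinv_q, hq', ← g7] at g6
  have hqq0 : q (q 0) = hh := by rw [hq', hq', zero_add, qq_add_qq]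
  rw [hqq0] at g6
  rcases hfib with h | h
  · rw [h, neg_zero, h] at g6
    exact hh_ne_zero g6.symm
  · rw [h, neg_hh] at g6
    have h0 := hFh 0
    rw [zero_add, h, hh_add_hh, g6] at h0
    exact hh_ne_zero h0

/-- The contradiction in general. -/
theorem no_lift {α β : S} (hind : ∀ m n : ℤ, m • α + n • β = 0 → m = 0 ∧ n = 0)
    (hdense : DenseRange fun n : ℤ => n • α)
    (a b q ρ F : Equiv.Perm S) (R1 : a * b = b * a)
    (R2 : q * a = a * q) (R3 : ρ * a = a⁻¹ * ρ) (R4 : F * (q * q) = (q * q) * F)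
    (R5 : ∀ n : ℤ, F * (a ^ n * F * (a ^ n)⁻¹) = (a ^ n * F * (a ^ n)⁻¹) * F)
    (R6 : F * (q * F * q⁻¹) = q * q) (R7 : ρ * F * ρ⁻¹ = q * F * q⁻¹)
    (ha : {x | a x ≠ x + α}.Finite) (hb : {x | b x ≠ x + β}.Finite)
    (hq : {x | q x ≠ x + qq}.Finite) (hρ : {x | ρ x ≠ -x}.Finite)
    (hF : {x | F x ≠ F0 x}.Finite) : False := by
  obtain ⟨Θ, hΘ, hΘa⟩ := rigid α β hind a b R1 ha hb
  have hα : ∀ n : ℤ, n • α = 0 → n = 0 := by
    intro n hn
    exact (hind n 0 (by rw [hn, zero_smul, add_zero])).1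
  have hΘinv : {x | Θ⁻¹ x ≠ x}.Finite := by
    refine hΘ.subset ?_
    intro x hx hcon
    apply hx
    rw [Equiv.Perm.inv_eq_iff_eq]
    exact hcon.symm
  -- conjugation preserves near equality
  have hnear : ∀ (f : Equiv.Perm S) (f0 : S → S), {x | f x ≠ f0 x}.Finite →
      {x | (Θ⁻¹ * f * Θ) x ≠ f0 x}.Finite := by
    intro f f0 hf
    refine ((hΘ.union hf).union (hΘinv.preimage f.injective.injOn)).subset ?_
    intro x hx
    by_contra hcon
    simp only [Set.mem_union, Set.mem_preimage, Set.mem_ofPred_eq, not_or, not_not] at hcon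
    apply hx
    show Θ⁻¹ (f (Θ x)) = f0 x
    rw [hcon.1.1, hcon.2, hcon.1.2]
  let c : Equiv.Perm S → Equiv.Perm S := fun f => Θ⁻¹ * f * Θ
  have hc : ∀ f, c f = (MulAut.conj Θ⁻¹) f := by
    intro f
    simp [c]
  have ha' : ∀ x, c a x = x + α := by
    intro x
    show Θ⁻¹ (a (Θ x)) = x + α
    rw [← hΘa, inv_self']
  refine no_lift_exact hα hdense (c a) (c q) (c ρ) (c F) ha' ?_ ?_ ?_ ?_ ?_ ?_
    (hnear q _ hq) (hnear ρ _ hρ) (hnear F _ hF)
  · rw [hc, hc, ← map_mul, ← map_mul, R2]
  · rw [hc, hc, ← map_inv, ← map_mul, ← map_mul, R3]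
  · rw [hc, hc, ← map_mul, ← map_mul, ← map_mul, R4]
  · intro n
    rw [hc, hc, ← map_zpow, ← map_inv, ← map_mul, ← map_mul, ← map_mul, ← map_mul, R5]
  · rw [hc, hc, ← map_inv, ← map_mul, ← map_mul, ← map_mul, ← map_mul, R6]
  · rw [hc, hc, hc, ← map_inv, ← map_inv, ← map_mul, ← map_mul, ← map_mul, ← map_mul, R7]

end Q78.PCB
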