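import Mathlib
import Pool.Agent.Q78.PCB.Core

/-! The non-realizable solvable group. -/

namespace Q78.PCB

open Topology Set
open scoped commutatorElement

/-! ### Generators -/

/-- Translation as a permutation. -/
def tr (c : S) : Equiv.Perm S := Equiv.addRight c

theorem tr_apply (c x : S) : tr c x = x + c := rfl

/-- Reflection. -/
def refl : Equiv.Perm S := Equiv.neg S

theorem refl_apply (x : S) : refl x = -x := rfl

theorem cofin_of_continuous {f : Equiv.Perm S} (hf : Continuous f) : CofinContinuous f := by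
  have : {x : S | ¬ ContinuousAt f x} = ∅ := by
    ext x
    simp only [Set.mem_ofPred_eq, Set.mem_empty_iff_false, iff_false, not_not]
    exact hf.continuousAt
  show Set.Finite _
  rw [this]
  exact Set.finite_empty

theorem tr_mem (c : S) : tr c ∈ PCSub := by
  refine ⟨cofin_of_continuous (continuous_add_const c), ?_⟩
  have : (tr c)⁻¹ = tr (-c) := by
    ext x
    rw [Equiv.Perm.inv_eq_iff_eq, tr_apply, tr_apply, neg_add_cancel_right]
  rw [this]
  exact cofin_of_continuous (continuous_add_const (-c))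

theorem refl_mem : refl ∈ PCSub := ⟨cofin_of_continuous continuous_neg,
  cofin_of_continuous continuous_neg⟩

theorem Fp_local {x : S} (hx : x ∉ Exc) : ∃ c : S, ∀ᶠ y in 𝓝 x, Fp y = y + c := by
  by_cases h : x ∈ BB
  · refine ⟨hh, ?_⟩
    filter_upwards [BB_eventually hx] with y hy
    show F0 y = y + hh
    unfold F0
    rw [if_pos (hy.2 h)]
  · refine ⟨0, ?_⟩
    filter_upwards [BB_eventually hx] with y hy
    show F0 y = y + 0
    unfold F0
    rw [if_neg (fun h' => h (hy.1 h')), add_zero]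

theorem Fp_mem : Fp ∈ PCSub := by
  have h : CofinContinuous Fp := by
    refine finite_Exc.subset ?_
    intro x hx
    by_contra hcon
    apply hx
    obtain ⟨c, hc⟩ := Fp_local hcon
    exact (continuous_add_const c).continuousAt.congr (hc.mono fun y hy => hy.symm)
  exact ⟨h, by rw [Fp_inv]; exact h⟩

/-- The generators as elements of the group. -/
def gtr (c : S) : PC := ⟨tr c, tr_mem c⟩
def grefl : PC := ⟨refl, refl_mem⟩
noncomputable def gF : PC := ⟨Fp, Fp_mem⟩

/-! ### Piecewise isometries -/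

theorem IsPiecewiseIsometric.mul {f g : Equiv.Perm S} (hf : IsPiecewiseIsometric f)
    (hg : IsPiecewiseIsometric g) : IsPiecewiseIsometric (f * g) := by
  obtain ⟨K, hK, hf⟩ := hf
  obtain ⟨L, hL, hg⟩ := hg
  refine ⟨L ∪ g ⁻¹' K, hL.union (hK.preimage g.injective.injOn), ?_⟩
  intro x hx
  simp only [Set.mem_union, Set.mem_preimage, not_or] at hx
  obtain ⟨c, hc⟩ := hg x hx.1
  obtain ⟨d, hd⟩ := hf (g x) hx.2
  have hcont : ContinuousAt g x := by
    rcases hc with hc | hc
    · exact (continuous_add_const c).continuousAt.congr (hc.mono fun y hy => hy.symm)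
    · exact ((continuous_neg.add continuous_const).continuousAt (x := x)).congr
        (hc.mono fun y hy => hy.symm)
  rcases hd with hd | hd
  · have hd' := hcont.eventually hd
    rcases hc with hc | hc
    · refine ⟨c + d, Or.inl ?_⟩
      filter_upwards [hc, hd'] with y h1 h2
      show f (g y) = _
      rw [h2, h1]; abel
    · refine ⟨c + d, Or.inr ?_⟩
      filter_upwards [hc, hd'] with y h1 h2
      show f (g y) = _
      rw [h2, h1]; abel
  · have hd' := hcont.eventually hd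
    rcases hc with hc | hc
    · refine ⟨-c + d, Or.inr ?_⟩
      filter_upwards [hc, hd'] with y h1 h2
      show f (g y) = _
      rw [h2, h1]; abel
    · refine ⟨-c + d, Or.inl ?_⟩
      filter_upwards [hc, hd'] with y h1 h2
      show f (g y) = _
      rw [h2, h1]; abel

theorem IsPiecewiseIsometric.inv {f : Equiv.Perm S} (hf : IsPiecewiseIsometric f) :
    IsPiecewiseIsometric f⁻¹ := by
  obtain ⟨K, hK, hf⟩ := hf
  refine ⟨f '' K, hK.image f, ?_⟩
  intro z hz
  have hx : f⁻¹ z ∉ K := fun h => hz ⟨_, h, self_inv' f z⟩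
  obtain ⟨c, hc⟩ := hf _ hx
  rcases hc with hc | hc
  · have h0 : f⁻¹ z = z - c := by
      have := hc.self_of_nhds
      rw [self_inv'] at this
      rw [eq_sub_iff_add_eq]
      exact this.symm
    refine ⟨-c, Or.inl ?_⟩
    have hcont : Filter.Tendsto (fun y : S => y - c) (𝓝 z) (𝓝 (f⁻¹ z)) := by
      rw [h0]
      exact (continuous_sub_right c).tendsto z
    filter_upwards [hcont.eventually hc] with y hy
    rw [Equiv.Perm.inv_eq_iff_eq, ← sub_eq_add_neg, hy, sub_add_cancel]
  · have h0 : f⁻¹ z = -z + c := by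
      have := hc.self_of_nhds
      rw [self_inv'] at this
      generalize f⁻¹ z = w at this ⊢
      rw [this]
      abel
    refine ⟨c, Or.inr ?_⟩
    have hcont : Filter.Tendsto (fun y : S => -y + c) (𝓝 z) (𝓝 (f⁻¹ z)) := by
      rw [h0]
      exact (continuous_neg.add continuous_const).tendsto z
    filter_upwards [hcont.eventually hc] with y hy
    rw [Equiv.Perm.inv_eq_iff_eq, hy]
    abel

theorem iso_one : IsPiecewiseIsometric 1 :=
  ⟨∅, Set.finite_empty, fun x _ => ⟨0, Or.inl (Filter.Eventually.of_forall fun y => by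
    rw [add_zero]; rfl)⟩⟩

theorem iso_tr (c : S) : IsPiecewiseIsometric (tr c) :=
  ⟨∅, Set.finite_empty, fun x _ => ⟨c, Or.inl (Filter.Eventually.of_forall fun y => rfl)⟩⟩

theorem iso_refl : IsPiecewiseIsometric refl :=
  ⟨∅, Set.finite_empty, fun x _ => ⟨0, Or.inr (Filter.Eventually.of_forall fun y => by
    rw [add_zero]; rfl)⟩⟩

theorem iso_F : IsPiecewiseIsometric Fp :=
  ⟨Exc, finite_Exc, fun x hx => by
    obtain ⟨c, hc⟩ := Fp_local hx
    exact ⟨c, Or.inl hc⟩⟩

/-! ### Solvability -/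

/-- The condition defining the three layers. -/
def Aff (ε : ℤ) (c : S) (f : Equiv.Perm S) : Prop := ∀ x, (2 : ℤ) • f x = ε • ((2 : ℤ) • x) + c

theorem Aff.mul {ε ε' : ℤ} {c c' : S} {f g : Equiv.Perm S} (hf : Aff ε c f) (hg : Aff ε' c' g) :
    Aff (ε * ε') (ε • c' + c) (f * g) := by
  intro x
  show (2 : ℤ) • f (g x) = _
  rw [hf, hg, smul_add, smul_smul ε ε', add_assoc]

theorem Aff.inv {ε : ℤ} (hε : ε * ε = 1) {c : S} {f : Equiv.Perm S} (hf : Aff ε c f) :
    Aff ε (-(ε • c)) f⁻¹ := by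
  intro x
  have h := hf (f⁻¹ x)
  rw [self_inv'] at h
  rw [h, smul_add, smul_smul ε ε, hε, one_smul]
  abel

def L0 : Subgroup (Equiv.Perm S) where
  carrier := {f | ∃ (ε : ℤ) (c : S), ε * ε = 1 ∧ Aff ε c f}
  mul_mem' := by
    rintro f g ⟨ε, c, h1, h2⟩ ⟨ε', c', h1', h2'⟩
    exact ⟨ε * ε', _, by
      calc ε * ε' * (ε * ε') = (ε * ε) * (ε' * ε') := by ring
        _ = 1 := by rw [h1, h1']; rfl, h2.mul h2'⟩
  one_mem' := ⟨1, 0, by norm_num, fun x => by simp⟩
  inv_mem' := by
    rintro f ⟨ε, c, h1, h2⟩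
    exact ⟨ε, _, h1, h2.inv h1⟩

def L1 : Subgroup (Equiv.Perm S) where
  carrier := {f | ∃ c : S, Aff 1 c f}
  mul_mem' := by
    rintro f g ⟨c, h2⟩ ⟨c', h2'⟩
    exact ⟨_, h2.mul h2'⟩
  one_mem' := ⟨0, fun x => by simp⟩
  inv_mem' := by
    rintro f ⟨c, h2⟩
    exact ⟨_, h2.inv (by norm_num)⟩

def L2 : Subgroup (Equiv.Perm S) where
  carrier := {f | Aff 1 0 f}
  mul_mem' := by
    rintro f g h2 h2'
    have := h2.mul h2'
    simpa using this
  one_mem' := fun x => by simp
  inv_mem' := by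
    rintro f h2
    have := h2.inv (by norm_num)
    simpa using this

theorem comm01 {f g : Equiv.Perm S} (hf : f ∈ L0) (hg : g ∈ L0) : ⁅f, g⁆ ∈ L1 := by
  obtain ⟨ε, c, h1, h2⟩ := hf
  obtain ⟨ε', c', h1', h2'⟩ := hg
  have h := ((h2.mul h2').mul (h2.inv h1)).mul (h2'.inv h1')
  rw [commutatorElement_def]
  have e : ε * ε' * ε * ε' = 1 := by
    calc ε * ε' * ε * ε' = (ε * ε) * (ε' * ε') := by ring
      _ = 1 := by rw [h1, h1']; rfl
  rw [e] at h
  exact ⟨_, h⟩

theorem comm12 {f g : Equiv.Perm S} (hf : f ∈ L1) (hg : g ∈ L1) : ⁅f, g⁆ ∈ L2 := by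
  obtain ⟨c, h2⟩ := hf
  obtain ⟨c', h2'⟩ := hg
  have h := ((h2.mul h2').mul (h2.inv (by norm_num))).mul (h2'.inv (by norm_num))
  rw [commutatorElement_def]
  show Aff 1 0 _
  have e1 : (1 * 1 * 1 * 1 : ℤ) = 1 := by norm_num
  rw [e1] at h
  convert h using 1
  simp only [one_smul, mul_one]
  abel

theorem L2_cases {f : Equiv.Perm S} (hf : f ∈ L2) (x : S) : f x = x ∨ f x = x + hh := by
  have h : Aff 1 0 f := hf
  have h' := h x
  rw [one_smul, add_zero] at h'
  exact two_smul_eq _ _ h'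

theorem comm2 {f g : Equiv.Perm S} (hf : f ∈ L2) (hg : g ∈ L2) : f * g = g * f := by
  have key : ∀ {f : Equiv.Perm S}, f ∈ L2 → ∀ x, (f x = x → f (x + hh) = x + hh) ∧
      (f x = x + hh → f (x + hh) = x) := by
    intro f hf x
    constructor
    · intro h
      rcases L2_cases hf (x + hh) with h' | h'
      · exact h'
      · exfalso
        rw [add_assoc, hh_add_hh, add_zero] at h'
        have h3 : f (x + hh) = f x := h'.trans h.symm
        have h4 := f.injective h3
        have h5 : x + hh = x + 0 := by rw [h4, add_zero]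
        exact hh_ne_zero (add_left_cancel h5)
    · intro h
      rcases L2_cases hf (x + hh) with h' | h'
      · exfalso
        have h3 : f (x + hh) = f x := h'.trans h.symm
        have h4 := f.injective h3
        have h5 : x + hh = x + 0 := by rw [h4, add_zero]
        exact hh_ne_zero (add_left_cancel h5)
      · rw [add_assoc, hh_add_hh, add_zero] at h'
        exact h'
  ext x
  rw [Equiv.Perm.mul_apply, Equiv.Perm.mul_apply]
  rcases L2_cases hf x with h1 | h1 <;> rcases L2_cases hg x with h2 | h2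
  · rw [h2, h1, h2]
  · rw [h2, h1, h2, (key hf x).1 h1]
  · rw [h2, h1, (key hg x).1 h2]
  · rw [h2, h1, (key hf x).2 h1, (key hg x).2 h2]

theorem solvable_L0 : Group.IsSolvable L0 := by
  rw [Group.isSolvable_def]
  refine ⟨3, ?_⟩
  have h1 : derivedSeries L0 1 ≤ L1.subgroupOf L0 := by
    rw [derivedSeries_succ, Subgroup.commutator_le]
    intro f _ g _
    exact comm01 f.2 g.2
  have h2 : derivedSeries L0 2 ≤ L2.subgroupOf L0 := by
    rw [derivedSeries_succ]
    refine (Subgroup.commutator_mono h1 h1).trans ?_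
    rw [Subgroup.commutator_le]
    intro f hf g hg
    exact comm12 hf hg
  rw [derivedSeries_succ, eq_bot_iff]
  refine (Subgroup.commutator_mono h2 h2).trans ?_
  rw [Subgroup.commutator_le]
  intro f hf g hg
  rw [Subgroup.mem_bot, commutatorElement_eq_one_iff_mul_comm]
  exact Subtype.ext (comm2 hf hg)

theorem tr_L0 (c : S) : tr c ∈ L0 :=
  ⟨1, (2 : ℤ) • c, by norm_num, fun x => by rw [tr_apply, smul_add, one_smul]⟩

theorem refl_L0 : refl ∈ L0 :=
  ⟨-1, 0, by norm_num, fun x => by rw [refl_apply, smul_neg, add_zero, neg_smul, one_smul]⟩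

theorem F_L0 : Fp ∈ L0 :=
  ⟨1, 0, by norm_num, fun x => by
    show (2 : ℤ) • F0 x = _
    rw [one_smul, add_zero]
    rcases F0_cases x with ⟨_, h⟩ | ⟨_, h⟩
    · rw [h, smul_add, two_smul_hh, add_zero]
    · rw [h]⟩

/-! ### Rational independence -/

theorem indep_real (m n k : ℤ) (h : (m : ℝ) * √2 + n * √3 + k = 0) : m = 0 ∧ n = 0 := by
  have i2 : Irrational √2 := irrational_sqrt_two
  have i3 : Irrational √3 := by
    have := Nat.Prime.irrational_sqrt Nat.prime_three
    exact_mod_cast this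
  have i6 : Irrational √6 := by
    have h6 : ¬ IsSquare (6 : ℕ) := by
      rintro ⟨r, hr⟩
      have : r ≤ 3 := by nlinarith
      interval_cases r <;> omega
    have := irrational_sqrt_natCast_iff.2 h6
    exact_mod_cast this
  have s2 : √2 * √2 = 2 := Real.mul_self_sqrt (by norm_num)
  have s3 : √3 * √3 = 3 := Real.mul_self_sqrt (by norm_num)
  have s6 : √2 * √3 = √6 := by
    rw [← Real.sqrt_mul (by norm_num)]
    norm_num
  by_cases hm : m = 0
  · refine ⟨hm, ?_⟩
    by_contra hn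
    subst hm
    have hn' : (n : ℝ) ≠ 0 := by exact_mod_cast hn
    apply i3
    refine ⟨(-k : ℤ) / n, ?_⟩
    push_cast
    rw [div_eq_iff hn']
    push_cast at h
    linarith
  · exfalso
    by_cases hn : n = 0
    · subst hn
      have hm' : (m : ℝ) ≠ 0 := by exact_mod_cast hm
      apply i2
      refine ⟨(-k : ℤ) / m, ?_⟩
      push_cast
      rw [div_eq_iff hm']
      push_cast at h
      linarith
    · have hmn : ((2 * m * n : ℤ) : ℝ) ≠ 0 := by
        have : (2 * m * n : ℤ) ≠ 0 := by positivity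
        exact_mod_cast this
      apply i6
      refine ⟨(k ^ 2 - 2 * m ^ 2 - 3 * n ^ 2 : ℤ) / (2 * m * n : ℤ), ?_⟩
      push_cast
      push_cast at hmn
      rw [div_eq_iff hmn]
      have h2 : (m : ℝ) * √2 + n * √3 = -k := by linarith
      have h3 : ((m : ℝ) * √2 + n * √3) ^ 2 = k ^ 2 := by rw [h2]; ring
      have h4 : ((m : ℝ) * √2 + n * √3) ^ 2 =
        m ^ 2 * (√2 * √2) + n ^ 2 * (√3 * √3) + 2 * m * n * (√2 * √3) := by ring
      rw [h4, s2, s3, s6] at h3
      linarith

theorem indep (m n : ℤ) (h : m • ((√2 : ℝ) : S) + n • ((√3 : ℝ) : S) = 0) : m = 0 ∧ n = 0 := by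
  have h' : ((m • √2 + n • √3 : ℝ) : S) = ((0 : ℝ) : S) := by
    rw [AddCircle.coe_add, AddCircle.coe_zsmul, AddCircle.coe_zsmul]
    exact h
  obtain ⟨k, hk⟩ := (coe_eq_iff _ _).1 h'
  refine indep_real m n (-k) ?_
  simp only [zsmul_eq_mul, zero_add] at hk
  push_cast
  linarith

theorem dense_sqrt2 : DenseRange fun n : ℤ => n • ((√2 : ℝ) : S) := by
  rw [AddCircle.denseRange_zsmul_coe_iff, div_one]
  exact irrational_sqrt_two

/-! ### The group -/

/-- The five generators. -/
noncomputable def gens : Set PC :=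
  {gtr ((√2 : ℝ) : S), gtr ((√3 : ℝ) : S), gtr qq, grefl, gF}

/-- The group upstairs. -/
noncomputable def Gup : Subgroup PC := Subgroup.closure gens

/-- The non-realizable group. -/
noncomputable def Gam : Subgroup PCBow := Gup.map proj

theorem Gam_fg : Gam.FG := by
  have hfin : gens.Finite := by
    unfold gens
    exact Set.toFinite _
  have hfin2 : (proj '' gens).Finite := hfin.image _
  refine ⟨hfin2.toFinset, ?_⟩
  rw [hfin2.coe_toFinset]
  exact (proj.map_closure gens).symm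

theorem gup_sub : ∀ g ∈ Gup, perm g ∈ L0 := by
  intro g hg
  induction hg using Subgroup.closure_induction with
  | mem x hx =>
    rcases hx with rfl | rfl | rfl | rfl | rfl
    · exact tr_L0 _
    · exact tr_L0 _
    · exact tr_L0 _
    · exact refl_L0
    · exact F_L0
  | one => exact L0.one_mem
  | mul x y _ _ h1 h2 => exact L0.mul_mem h1 h2
  | inv x _ h => exact L0.inv_mem h

theorem Gam_solvable : Group.IsSolvable Gam := by
  have := solvable_L0
  let φ : Gup →* L0 :=
    { toFun := fun g => ⟨perm g.1, gup_sub _ g.2⟩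
      map_one' := rfl
      map_mul' := fun _ _ => rfl }
  have hφ : Function.Injective φ := by
    intro g g' h
    have h' : perm g.1 = perm g'.1 := congrArg (fun z : L0 => z.1) h
    exact Subtype.ext (Subtype.ext h')
  have h1 : Group.IsSolvable Gup := Group.isSolvable_of_isSolvable_injective hφ
  have hs : Function.Surjective (proj.subgroupMap Gup) := proj.subgroupMap_surjective Gup
  exact Group.isSolvable_of_surjective hs

theorem gup_iso : ∀ g ∈ Gup, IsPiecewiseIsometric (perm g) := by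
  intro g hg
  induction hg using Subgroup.closure_induction with
  | mem x hx =>
    rcases hx with rfl | rfl | rfl | rfl | rfl
    · exact iso_tr _
    · exact iso_tr _
    · exact iso_tr _
    · exact iso_refl
    · exact iso_F
  | one => exact iso_one
  | mul x y _ _ h1 h2 => exact h1.mul h2
  | inv x _ h => exact h.inv

theorem Gam_iet : ∀ g ∈ Gam, g ∈ IETBow := by
  rintro _ ⟨g, hg, rfl⟩
  exact ⟨g, gup_iso g hg, rfl⟩

theorem near_of_proj {f g : PC} (h : proj f = proj g) : {x | perm f x ≠ perm g x}.Finite := by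
  have h' : g⁻¹ * f ∈ FinSupp := by
    have : proj (g⁻¹ * f) = 1 := by rw [map_mul, map_inv, h, inv_mul_cancel]
    exact (QuotientGroup.eq_one_iff _).1 this
  have h2 : {x | (perm g)⁻¹ (perm f x) ≠ x}.Finite := h'
  refine h2.subset ?_
  intro x hx hcon
  apply hx
  rw [Equiv.Perm.inv_eq_iff_eq] at hcon
  exact hcon

theorem proj_of_near {f g : PC} (h : {x | perm f x ≠ perm g x}.Finite) : proj f = proj g := by
  have h' : g⁻¹ * f ∈ FinSupp := by
    show {x | (perm g)⁻¹ (perm f x) ≠ x}.Finite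
    refine h.subset ?_
    intro x hx hcon
    apply hx
    rw [Equiv.Perm.inv_eq_iff_eq]
    exact hcon
  have : proj (g⁻¹ * f) = 1 := (QuotientGroup.eq_one_iff _).2 h'
  rw [map_mul, map_inv, inv_mul_eq_one] at this
  exact this.symm

theorem F_comm_tr (c : S) : Fp * (tr c * Fp * (tr c)⁻¹) = (tr c * Fp * (tr c)⁻¹) * Fp := by
  have hinv : ∀ x, (tr c)⁻¹ x = x - c := by
    intro x
    rw [Equiv.Perm.inv_eq_iff_eq, tr_apply, sub_add_cancel]
  ext x
  simp only [Equiv.Perm.mul_apply, hinv, tr_apply]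
  show F0 (F0 (x - c) + c) = F0 (F0 x - c) + c
  have key : ∀ x y : S, (y = x ∨ y = x + hh) → F0 y = y ∧ F0 x = x ∨ F0 y = y + hh ∧ F0 x = x + hh := by
    intro x y hy
    rcases F0_cases x with ⟨h1, h2⟩ | ⟨h1, h2⟩
    · right
      refine ⟨?_, h2⟩
      rcases F0_cases y with ⟨_, h3⟩ | ⟨h3, _⟩
      · exact h3
      · exfalso
        apply h3
        rcases hy with rfl | rfl
        · exact h1
        · exact (BB_add_hh x).2 h1
    · left
      refine ⟨?_, h2⟩
      rcases F0_cases y with ⟨h3, _⟩ | ⟨_, h3⟩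
      · exfalso
        apply h1
        rcases hy with rfl | rfl
        · exact h3
        · exact (BB_add_hh x).1 h3
      · exact h3
  have hF : ∀ z, F0 z = z ∨ F0 z = z + hh := fun z => by
    rcases F0_cases z with ⟨_, h⟩ | ⟨_, h⟩
    · exact Or.inr h
    · exact Or.inl h
  have k1 := key x (F0 (x - c) + c) (by
    rcases hF (x - c) with h | h
    · left; rw [h]; abel
    · right; rw [h]; abel)
  have k2 := key (x - c) (F0 x - c) (by
    rcases hF x with h | h
    · left; rw [h]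
    · right; rw [h]; abel)
  rcases k1 with ⟨a1, a2⟩ | ⟨a1, a2⟩ <;> rcases k2 with ⟨b1, b2⟩ | ⟨b1, b2⟩
  · rw [a1, b1, b2, a2]
  · rw [a1, b1, b2, a2]
  · rw [a1, b1, b2, a2]; abel
  · rw [a1, b1, b2, a2]
    have : x - c + hh + c + hh = x + (hh + hh) := by abel
    rw [this]
    have : x + hh - c + hh + c = x + (hh + hh) := by abel
    rw [this]

theorem tr_mul (c d : S) : tr c * tr d = tr (d + c) := by
  ext x
  show x + d + c = x + (d + c)
  rw [add_assoc]

theorem tr_inv (c : S) : (tr c)⁻¹ = tr (-c) := by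
  ext x
  rw [Equiv.Perm.inv_eq_iff_eq, tr_apply, tr_apply, neg_add_cancel_right]

theorem tr_zpow (c : S) (n : ℤ) : (tr c) ^ n = tr (n • c) := by
  induction n using Int.induction_on with
  | zero =>
    ext x
    rw [zpow_zero, zero_smul, tr_apply, add_zero]
    rfl
  | succ n ih => rw [zpow_add_one, ih, tr_mul, add_smul, one_smul, add_comm]
  | pred n ih => rw [zpow_sub_one, ih, tr_inv, tr_mul, sub_smul, one_smul, sub_eq_add_neg, add_comm]

theorem rel6 : Fp * (tr qq * Fp * (tr qq)⁻¹) = tr qq * tr qq := by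
  rw [tr_inv, tr_mul, qq_add_qq]
  ext x
  simp only [Equiv.Perm.mul_apply, tr_apply]
  show F0 (F0 (x + -qq) + qq) = x + hh
  rcases F0_cases (x + -qq) with ⟨h1, h2⟩ | ⟨h1, h2⟩
  · have h3 : x ∉ BB := by
      have := (BB_add_qq (x + -qq))
      rw [neg_add_cancel_right] at this
      intro h4
      exact (this.1 h4) h1
    rw [h2]
    have e : x + -qq + hh + qq = x + hh := by abel
    rw [e]
    rcases F0_cases (x + hh) with ⟨h4, _⟩ | ⟨_, h4⟩
    · exact absurd ((BB_add_hh x).1 h4) h3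
    · exact h4
  · have h3 : x ∈ BB := by
      have := (BB_add_qq (x + -qq))
      rw [neg_add_cancel_right] at this
      exact this.2 h1
    rw [h2, neg_add_cancel_right]
    rcases F0_cases x with ⟨_, h4⟩ | ⟨h4, _⟩
    · exact h4
    · exact absurd h3 h4

theorem rel7 : {x | (refl * Fp * refl⁻¹) x ≠ (tr qq * Fp * (tr qq)⁻¹) x}.Finite := by
  refine finite_Exc.subset ?_
  intro x hx
  by_contra hcon
  apply hx
  rw [tr_inv]
  have hr : refl⁻¹ x = -x := by
    rw [Equiv.Perm.inv_eq_iff_eq, refl_apply, neg_neg]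
  simp only [Equiv.Perm.mul_apply, tr_apply, hr]
  show -(F0 (-x)) = F0 (x + -qq) + qq
  have h1 := BB_neg hcon
  have h2 := (BB_add_qq (x + -qq))
  rw [neg_add_cancel_right] at h2
  rcases F0_cases (-x) with ⟨a1, a2⟩ | ⟨a1, a2⟩ <;>
    rcases F0_cases (x + -qq) with ⟨b1, b2⟩ | ⟨b1, b2⟩
  · rw [a2, b2, neg_add, neg_neg, neg_hh]
    abel
  · exact absurd (h2.2 b1) (h1.1 a1)
  · exfalso
    have h3 : x ∉ BB := fun h4 => (h2.1 h4) b1
    exact a1 (h1.2 h3)
  · rw [a2, b2, neg_neg]
    abel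

theorem Gam_not_realizable : ¬ Realizable Gam := by
  rintro ⟨Λ, hΛ⟩
  have hlift : ∀ g ∈ gens, ∃ f ∈ Λ, proj f = proj g := by
    intro g hg
    have : proj g ∈ (Gam : Set PCBow) := ⟨g, Subgroup.subset_closure hg, rfl⟩
    exact hΛ.surjOn this
  obtain ⟨a, haΛ, ha⟩ := hlift (gtr ((√2 : ℝ) : S)) (by simp [gens])
  obtain ⟨b, hbΛ, hb⟩ := hlift (gtr ((√3 : ℝ) : S)) (by simp [gens])
  obtain ⟨q, hqΛ, hq⟩ := hlift (gtr qq) (by simp [gens])
  obtain ⟨r, hrΛ, hr⟩ := hlift grefl (by simp [gens])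
  obtain ⟨F, hFΛ, hF⟩ := hlift gF (by simp [gens])
  have hinj : ∀ f ∈ Λ, ∀ g ∈ Λ, proj f = proj g → perm f = perm g := by
    intro f hf g hg h
    rw [hΛ.injOn hf hg h]
  have pm : ∀ f g : PC, perm (f * g) = perm f * perm g := fun _ _ => rfl
  have pi : ∀ f : PC, perm f⁻¹ = (perm f)⁻¹ := fun _ => rfl
  have pz : ∀ (f : PC) (n : ℤ), perm (f ^ n) = (perm f) ^ n := by
    intro f n
    have : (PCSub.subtype : PCSub →* Equiv.Perm S) (f ^ n) = (PCSub.subtype f) ^ n :=
      map_zpow _ _ _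
    exact this
  have pext : ∀ f g : PC, perm f = perm g → f = g := fun f g h => Subtype.ext h
  refine no_lift indep dense_sqrt2 (perm a) (perm b) (perm q) (perm r) (perm F)
    ?_ ?_ ?_ ?_ ?_ ?_ ?_ ?_ ?_ ?_ ?_ ?_
  · rw [← pm, ← pm]
    refine hinj _ (Λ.mul_mem haΛ hbΛ) _ (Λ.mul_mem hbΛ haΛ) ?_
    have key : gtr ((√2 : ℝ) : S) * gtr ((√3 : ℝ) : S) =
        gtr ((√3 : ℝ) : S) * gtr ((√2 : ℝ) : S) := by
      apply pext
      show tr _ * tr _ = tr _ * tr _
      rw [tr_mul, tr_mul, add_comm]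
    have key' := congrArg proj key
    simp only [map_mul] at key' ⊢
    rw [ha, hb]
    exact key'
  · rw [← pm, ← pm]
    refine hinj _ (Λ.mul_mem hqΛ haΛ) _ (Λ.mul_mem haΛ hqΛ) ?_
    have key : gtr qq * gtr ((√2 : ℝ) : S) = gtr ((√2 : ℝ) : S) * gtr qq := by
      apply pext
      show tr _ * tr _ = tr _ * tr _
      rw [tr_mul, tr_mul, add_comm]
    have key' := congrArg proj key
    simp only [map_mul] at key' ⊢
    rw [ha, hq]
    exact key'
  · rw [← pm, ← pi, ← pm]
    refine hinj _ (Λ.mul_mem hrΛ haΛ) _ (Λ.mul_mem (Λ.inv_mem haΛ) hrΛ) ?_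
    have key : grefl * gtr ((√2 : ℝ) : S) = (gtr ((√2 : ℝ) : S))⁻¹ * grefl := by
      apply pext
      show refl * tr _ = (tr _)⁻¹ * refl
      rw [tr_inv]
      ext x
      rw [Equiv.Perm.mul_apply, Equiv.Perm.mul_apply, refl_apply, tr_apply, tr_apply, refl_apply,
        neg_add]
    have key' := congrArg proj key
    simp only [map_mul, map_inv] at key' ⊢
    rw [ha, hr]
    exact key'
  · rw [← pm, ← pm, ← pm]
    refine hinj _ (Λ.mul_mem hFΛ (Λ.mul_mem hqΛ hqΛ)) _ (Λ.mul_mem (Λ.mul_mem hqΛ hqΛ) hFΛ) ?_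
    have key : gF * (gtr qq * gtr qq) = (gtr qq * gtr qq) * gF := by
      apply pext
      show Fp * (tr qq * tr qq) = (tr qq * tr qq) * Fp
      rw [tr_mul, qq_add_qq]
      ext x
      show F0 (x + hh) = F0 x + hh
      rcases F0_cases x with ⟨h1, h2⟩ | ⟨h1, h2⟩
      · rcases F0_cases (x + hh) with ⟨_, h4⟩ | ⟨h3, _⟩
        · rw [h2, h4]
        · exact absurd ((BB_add_hh x).2 h1) h3
      · rcases F0_cases (x + hh) with ⟨h3, _⟩ | ⟨_, h4⟩
        · exact absurd ((BB_add_hh x).1 h3) h1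
        · rw [h2, h4]
    have key' := congrArg proj key
    simp only [map_mul] at key' ⊢
    rw [hF, hq]
    exact key'
  · intro n
    rw [← pz, ← pi, ← pm, ← pm, ← pm, ← pm]
    have hc : a ^ n * F * (a ^ n)⁻¹ ∈ Λ :=
      Λ.mul_mem (Λ.mul_mem (Λ.zpow_mem haΛ n) hFΛ) (Λ.inv_mem (Λ.zpow_mem haΛ n))
    refine hinj _ (Λ.mul_mem hFΛ hc) _ (Λ.mul_mem hc hFΛ) ?_
    have key : gF * (gtr ((√2 : ℝ) : S) ^ n * gF * (gtr ((√2 : ℝ) : S) ^ n)⁻¹) =
        (gtr ((√2 : ℝ) : S) ^ n * gF * (gtr ((√2 : ℝ) : S) ^ n)⁻¹) * gF := by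
      apply pext
      rw [pm, pm, pm, pm, pi, pz]
      show Fp * (tr _ ^ n * Fp * (tr _ ^ n)⁻¹) = (tr _ ^ n * Fp * (tr _ ^ n)⁻¹) * Fp
      rw [tr_zpow]
      exact F_comm_tr _
    have key' := congrArg proj key
    simp only [map_mul, map_inv, map_zpow] at key' ⊢
    rw [hF, ha]
    exact key'
  · rw [← pi, ← pm, ← pm, ← pm, ← pm]
    refine hinj _ (Λ.mul_mem hFΛ (Λ.mul_mem (Λ.mul_mem hqΛ hFΛ) (Λ.inv_mem hqΛ))) _
      (Λ.mul_mem hqΛ hqΛ) ?_
    have key : gF * (gtr qq * gF * (gtr qq)⁻¹) = gtr qq * gtr qq := by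
      apply pext
      exact rel6
    have key' := congrArg proj key
    simp only [map_mul, map_inv] at key' ⊢
    rw [hF, hq]
    exact key'
  · rw [← pi, ← pi, ← pm, ← pm, ← pm, ← pm]
    refine hinj _ (Λ.mul_mem (Λ.mul_mem hrΛ hFΛ) (Λ.inv_mem hrΛ)) _
      (Λ.mul_mem (Λ.mul_mem hqΛ hFΛ) (Λ.inv_mem hqΛ)) ?_
    have key' : proj (grefl * gF * grefl⁻¹) = proj (gtr qq * gF * (gtr qq)⁻¹) :=
      proj_of_near rel7
    simp only [map_mul, map_inv] at key' ⊢
    rw [hF, hq, hr]
    exact key'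
  · exact near_of_proj ha
  · exact near_of_proj hb
  · exact near_of_proj hq
  · exact near_of_proj hr
  · exact near_of_proj hF

end Q78.PCB
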